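import Pool.Agent.X90.DG.Rk4

/-!
# The space spanned by the relations of bounded height and depth
-/

set_option autoImplicit false

namespace Pool.Agent.X90.DG

open Finset
open Pool.Agent.Y760.ZG (mz)
open Pool.Agent.Y760.ZF (sti)
open Pool.Agent.X90.DB (Ad ix ex ex_nil ex_ne)
open Pool.Agent.X90.DC
open Pool.Agent.X90.DD
open Pool.Agent.X90.DE (IF XF mem_IF mem_XF ad mem_ad gw wd fam_iff span_int Fam)

lemma wd_inj {W ρ s : ℕ} (hs : W < s) : Function.Injective fun i : ↥(IFr W ρ) => wd W s i.1 := by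
  intro i i' h
  have h1 := Pool.Agent.X90.DE.wd_inj hs (a₁ := ⟨i.1, (mem_filter.1 i.2).1⟩)
    (a₂ := ⟨i'.1, (mem_filter.1 i'.2).1⟩) h
  exact Subtype.ext (congrArg (fun x : ↥(IF W) => x.1) h1)

lemma wd_pos {W ρ s : ℕ} (hs : 1 ≤ s) (i : ↥(IFr W ρ)) : ∀ a ∈ wd W s i.1, 1 ≤ a :=
  Pool.Agent.X90.DE.wd_pos hs (⟨i.1, (mem_filter.1 i.2).1⟩ : ↥(IF W))

lemma fam_iff4 {W ρ s : ℕ} (hs : 2 ≤ s) (w : List ℕ) :
    (Fam W (s + W) w ∧ w.length ≤ ρ + 1) ↔ ∃ i : ↥(IFr W ρ), w = wd W s i.1 := by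
  rw [fam_iff hs]
  have hl : ∀ i : List ℕ × List ℕ, (wd W s i).length = i.1.length + i.2.length + 1 := by
    intro i
    rw [wd, gw, List.length_append, List.length_cons]
    omega
  constructor
  · rintro ⟨⟨i, rfl⟩, h⟩
    rw [hl] at h
    exact ⟨⟨i.1, mem_filter.2 ⟨i.2, by omega⟩⟩, rfl⟩
  · rintro ⟨i, rfl⟩
    refine ⟨⟨⟨i.1, (mem_filter.1 i.2).1⟩, rfl⟩, ?_⟩
    rw [hl]
    have := (mem_filter.1 i.2).2
    omega

/-- **the expansion is injective** -/
lemma Ph_inj {W ρ m : ℕ} (ii jj : Fin m → ↥(IFr W ρ)) (cc : Fin m → ℤ)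
    (hexp : ∀ (A : Type) [CommRing A] (Z : List ℕ → A),
      (∀ u v, Ad u → Ad v → Z u * Z v = ((sti u v).map Z).sum) →
      ∀ s : ℕ, 2 ≤ s → ∀ c : ↥(IFr W ρ) → ℤ, ∑ i, (c i : A) * ex Z (wd W s i.1) =
        ∑ j, ((c (ii j) * cc j : ℤ) : A) *
          (ex Z (jj j).1.1 * ex Z (gw W s (jj j).1.1.sum (jj j).1.2))) :
    Function.Injective (Ph ii jj cc) := by
  classical
  rw [← LinearMap.ker_eq_bot, LinearMap.ker_eq_bot']
  intro c hc
  obtain ⟨Δ, hΔ, a, ha⟩ := Pool.Agent.X90.DA.common_den c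
  by_contra hne
  obtain ⟨i0, hi0⟩ : ∃ i, c i ≠ 0 := by
    by_contra h
    push Not at h
    exact hne (funext h)
  have ha0 : a i0 ≠ 0 := by
    intro h0
    have h1 := ha i0
    rw [h0, Int.cast_zero] at h1
    have hΔ' : (Δ : ℚ) ≠ 0 := by exact_mod_cast hΔ
    exact hi0 ((mul_eq_zero.1 h1).resolve_left hΔ')
  have hPa : ∀ i, ∑ j with jj j = i, a (ii j) * cc j = 0 := by
    intro i
    have h1 : ∑ j with jj j = i, c (ii j) * cc j = 0 := congrFun hc i
    have h2 : ((∑ j with jj j = i, a (ii j) * cc j : ℤ) : ℚ) = Δ *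
        ∑ j with jj j = i, c (ii j) * cc j := by
      push_cast
      rw [mul_sum]
      exact sum_congr rfl fun j _ => by rw [← ha (ii j)]; ring
    rw [h1, mul_zero] at h2
    exact_mod_cast h2
  set s : ℕ := W + 2 with hs
  have hinj := wd_inj (ρ := ρ) (by omega : W < s)
  obtain ⟨ℓ, hℓ⟩ : ∃ ℓ : ℕ, ∀ i : ↥(IFr W ρ), (wd W s i.1).length ≤ ℓ :=
    ⟨∑ i : ↥(IFr W ρ), (wd W s i.1).length, fun i =>
      single_le_sum (f := fun i : ↥(IFr W ρ) => (wd W s i.1).length)
      (fun _ _ => Nat.zero_le _) (mem_univ i)⟩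
  set d : List ℕ → ℤ := fun u => ∑ i with wd W s i.1 = u, a i with hd
  have hdi : ∀ i, d (wd W s i.1) = a i := by
    intro i
    have h1 : (univ.filter fun i' : ↥(IFr W ρ) => wd W s i'.1 = wd W s i.1) = {i} := by
      ext i'
      rw [mem_filter, mem_singleton]
      exact ⟨fun h => hinj h.2, fun h => ⟨mem_univ _, by rw [h]⟩⟩
    simp only [hd]
    rw [h1, sum_singleton]
  obtain ⟨ts, hts⟩ := words_indep ℓ (univ.image fun i : ↥(IFr W ρ) => wd W s i.1) d (fun x hx => by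
      rw [mem_image] at hx
      obtain ⟨i, -, rfl⟩ := hx
      exact hℓ i) (fun x hx b hb => by
      rw [mem_image] at hx
      obtain ⟨i, -, rfl⟩ := hx
      exact wd_pos (by omega) i b hb)
    ⟨wd W s i0.1, mem_image_of_mem _ (mem_univ _), by rw [hdi]; exact ha0⟩
  apply hts
  rw [sum_image fun i _ j _ h => hinj h]
  simp only [hdi]
  have h1 := hexp ℂ (Zt ts) (fun u v _ _ => Zt_mul ts u v) s (by omega) a
  simp only [ex_Zt] at h1
  rw [h1, ← sum_fiberwise_of_maps_to (s := univ) (t := univ) (g := jj) (fun j _ => mem_univ _)]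
  refine sum_eq_zero fun i _ => ?_
  have h2 : ∑ j with jj j = i, ((a (ii j) * cc j : ℤ) : ℂ) *
      (Zt ts (jj j).1.1 * Zt ts (gw W s (jj j).1.1.sum (jj j).1.2)) =
      ((∑ j with jj j = i, a (ii j) * cc j : ℤ) : ℂ) *
        (Zt ts i.1.1 * Zt ts (gw W s i.1.1.sum i.1.2)) := by
    push_cast
    rw [sum_mul]
    refine sum_congr rfl fun j hj => ?_
    rw [mem_filter] at hj
    rw [hj.2]
  rw [h2, hPa i, Int.cast_zero, zero_mul]

/-- the space spanned by the relations of height at most `H` between the values with one large argument -/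
noncomputable def relS (W ρ k : ℕ) (H : ℝ) : Submodule ℚ (List ℕ →₀ ℚ) :=
  Submodule.span ℚ {c | (∀ w ∈ c.support, Fam W k w ∧ w.length ≤ ρ + 1) ∧
    (∀ w, ∃ z : ℤ, c w = z ∧ |(z : ℝ)| ≤ H) ∧ c.sum (fun w x => (x : ℝ) * mz w) = 0}

/-- the map from the coefficients to the formal sums of words -/
noncomputable def En (W ρ s : ℕ) : (↥(IFr W ρ) → ℚ) →ₗ[ℚ] (List ℕ →₀ ℚ) :=
  Fintype.linearCombination ℚ (fun i : ↥(IFr W ρ) => Finsupp.single (wd W s i.1) (1 : ℚ))

lemma En_apply (W ρ s : ℕ) (c : ↥(IFr W ρ) → ℚ) : En W ρ s c = ∑ i, Finsupp.single (wd W s i.1) (c i) := by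
  rw [En, Fintype.linearCombination_apply]
  refine sum_congr rfl fun i _ => ?_
  rw [Finsupp.smul_single, smul_eq_mul, mul_one]

lemma En_wd {W ρ s : ℕ} (hs : W < s) (c : ↥(IFr W ρ) → ℚ) (i : ↥(IFr W ρ)) :
    En W ρ s c (wd W s i.1) = c i := by
  classical
  rw [En_apply, Finsupp.finsetSum_apply, sum_eq_single i]
  · rw [Finsupp.single_eq_same]
  · intro j _ hj
    rw [Finsupp.single_apply, if_neg]
    exact fun h => hj (wd_inj hs h)
  · intro h
    exact absurd (mem_univ _) h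

lemma En_out {W ρ s : ℕ} (c : ↥(IFr W ρ) → ℚ) {w : List ℕ} (hw : ∀ i : ↥(IFr W ρ), w ≠ wd W s i.1) :
    En W ρ s c w = 0 := by
  classical
  rw [En_apply, Finsupp.finsetSum_apply]
  refine sum_eq_zero fun i _ => ?_
  rw [Finsupp.single_apply, if_neg fun h => hw i h.symm]

lemma En_inj {W ρ s : ℕ} (hs : W < s) : Function.Injective (En W ρ s) := by
  intro c d h
  funext i
  rw [← En_wd hs c i, h, En_wd hs d i]

lemma En_sum {W ρ s : ℕ} (c : ↥(IFr W ρ) → ℚ) :
    (En W ρ s c).sum (fun w x => (x : ℝ) * mz w) = ∑ i, (c i : ℝ) * mz (wd W s i.1) := by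
  classical
  rw [En_apply]
  rw [← Finsupp.sum_finsetSum_index (h := fun w x => ((x : ℚ) : ℝ) * mz w)]
  · refine sum_congr rfl fun i _ => ?_
    rw [Finsupp.sum_single_index]
    rw [Rat.cast_zero, zero_mul]
  · intro w
    rw [Rat.cast_zero, zero_mul]
  · intro w x y
    rw [Rat.cast_add, add_mul]

/-- **the dimension of the space of relations, for almost all weights** -/
theorem main (W ρ κ : ℕ) : ∃ K : ℕ, ∀ C : ℝ, 1 < C → ∃ N0 : ℕ, ∀ N : ℕ, N0 ≤ N → ∀ B : Finset ℕ,
    (∀ k ∈ B, (N ≤ k ∧ k ≤ κ * N) ∧ Module.finrank ℚ (relS W ρ k (C ^ k)) +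
      ∑ n ∈ range (W + 1), ∑ m ∈ range (W - n + 1), ∑ i ∈ range (ρ + 1),
        comps m i * Module.finrank ℚ (DZ n (ρ - i)) ≠
      ∑ n ∈ range (W + 1), ∑ m ∈ range (W - n + 1), ∑ i ∈ range (ρ + 1),
        comps m i * nl n (ρ - i)) → B.card ≤ K := by
  classical
  obtain ⟨m, ii, jj, cc, hexp, K, hK⟩ := core4 W ρ (κ + 1)
  refine ⟨K, fun C hC => ?_⟩
  set P := Ph ii jj cc with hP
  have hPinj : Function.Injective P := Ph_inj ii jj cc hexp
  set R := LinearMap.ker ((ev W ρ).comp P) with hR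
  have hrank := rank_rel P hPinj
  obtain ⟨H0, hH0, hspan⟩ := span_int R
  obtain ⟨N1, hN1⟩ : ∃ N1 : ℕ, ∀ k, N1 ≤ k → H0 ≤ C ^ k := by
    have h1 := (tendsto_pow_atTop_atTop_of_one_lt hC).eventually_ge_atTop H0
    rw [Filter.eventually_atTop] at h1
    exact h1
  obtain ⟨N0, hN0⟩ := hK (C ^ (2 * κ))
  refine ⟨N0 + N1 + (κ + 3) * W + 3, fun N hN B hB => ?_⟩
  have hκW : (κ + 3) * W = κ * W + 3 * W := by ring
  have hinjB : ∀ k ∈ B, W ≤ k := fun k hk => by
    have := (hB k hk).1.1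
    omega
  have hcard : (B.image fun k => k - W).card = B.card := card_image_of_injOn fun k hk k' hk' h => by
    have h1 := hinjB k hk
    have h2 := hinjB k' hk'
    have h3 : k - W = k' - W := h
    omega
  rw [← hcard]
  refine hN0 (N - W) (by omega) _ fun s hs => ?_
  rw [mem_image] at hs
  obtain ⟨k, hk, rfl⟩ := hs
  obtain ⟨⟨hk1, hk2⟩, hk3⟩ := hB k hk
  obtain ⟨s, rfl⟩ : ∃ s, k = s + W := ⟨k - W, by omega⟩
  rw [Nat.add_sub_cancel]
  have hsW : W < s := by omega
  refine ⟨⟨by omega, ?_⟩, ?_⟩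
  · have h1 : (κ + 1) * (N - W) + (κ + 1) * W = (κ + 1) * N := by
      rw [← mul_add]
      congr 1
      omega
    have h2 : (κ + 1) * N = κ * N + N := by ring
    have h3 : (κ + 1) * W = κ * W + W := by ring
    omega
  by_contra hcon
  push Not at hcon
  apply hk3
  rw [← hrank, add_left_inj]
  -- the two spaces
  have hval : ∀ (c : ↥(IFr W ρ) → ℚ) (n : ℕ) (r : List ℕ),
      ∑ i : ↥(IFr W ρ) with i.1.1.sum = n ∧ i.1.2 = r, (P c i : ℝ) * mz i.1.1 =
      ∑ j with (jj j).1.1.sum = n ∧ (jj j).1.2 = r, ((c (ii j) * cc j : ℚ) : ℝ) * mz (jj j).1.1 := by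
    intro c n r
    rw [← sum_fiberwise_of_maps_to (s := univ.filter fun j => (jj j).1.1.sum = n ∧ (jj j).1.2 = r)
      (t := univ.filter fun i : ↥(IFr W ρ) => i.1.1.sum = n ∧ i.1.2 = r) (g := jj) (fun j hj => by
        rw [mem_filter] at hj ⊢
        exact ⟨mem_univ _, hj.2⟩)]
    refine sum_congr rfl fun i hi => ?_
    rw [mem_filter] at hi
    rw [filter_filter]
    have h1 : (univ.filter fun j => ((jj j).1.1.sum = n ∧ (jj j).1.2 = r) ∧ jj j = i) =
        univ.filter fun j => jj j = i := by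
      ext j
      rw [mem_filter, mem_filter]
      constructor
      · rintro ⟨g1, -, g2⟩
        exact ⟨g1, g2⟩
      · rintro ⟨g1, g2⟩
        refine ⟨g1, ?_, g2⟩
        rw [g2]
        exact hi.2
    rw [h1]
    have h2 : P c i = ∑ j with jj j = i, c (ii j) * cc j := rfl
    rw [h2]
    push_cast
    rw [sum_mul]
    refine sum_congr rfl fun j hj => ?_
    rw [mem_filter] at hj
    rw [hj.2]
  have hmemR : ∀ c : ↥(IFr W ρ) → ℚ, c ∈ R ↔ ∀ (n : ℕ) (r : List ℕ),
      ∑ j with (jj j).1.1.sum = n ∧ (jj j).1.2 = r, ((c (ii j) * cc j : ℚ) : ℝ) * mz (jj j).1.1 =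
        0 := by
    intro c
    rw [hR, LinearMap.mem_ker]
    constructor
    · intro h n r
      by_cases hx : (n, r) ∈ XFr W ρ
      · have h1 := congrArg Subtype.val (congrFun h ⟨(n, r), hx⟩)
        have h2 : ∑ i : ↥(IFr W ρ) with i.1.1.sum = n ∧ i.1.2 = r, (P c) i • mz i.1.1 = 0 := h1
        rw [← hval]
        rw [← h2]
        exact sum_congr rfl fun i _ => by rw [Rat.smul_def]
      · refine sum_eq_zero fun j hj => ?_
        rw [mem_filter] at hj
        exfalso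
        apply hx
        have h1 := mem_IFr.1 (jj j).2
        rw [← hj.2.1, ← hj.2.2]
        exact mem_XFr.2 ⟨⟨h1.1.2.1, h1.1.2.2⟩, by
          have := h1.2
          simp only
          omega⟩
    · intro h
      funext x
      ext
      show ∑ i : ↥(IFr W ρ) with i.1.1.sum = x.1.1 ∧ i.1.2 = x.1.2, (P c) i • mz i.1.1 = 0
      rw [← h x.1.1 x.1.2, ← hval]
      exact sum_congr rfl fun i _ => by rw [Rat.smul_def]
  have hle1 : relS W ρ (s + W) (C ^ (s + W)) ≤ R.map (En W ρ s) := by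
    rw [relS, Submodule.span_le]
    rintro c ⟨hc1, hc2, hc3⟩
    rw [SetLike.mem_coe, Submodule.mem_map]
    have hcE : En W ρ s (fun i => c (wd W s i.1)) = c := by
      ext w
      by_cases hw : ∃ i : ↥(IFr W ρ), w = wd W s i.1
      · obtain ⟨i, rfl⟩ := hw
        rw [En_wd hsW]
      · push Not at hw
        rw [En_out _ hw]
        by_contra h0
        have h1 := hc1 w (Finsupp.mem_support_iff.2 fun h => h0 h.symm)
        rw [fam_iff4 (by omega)] at h1
        obtain ⟨i, hi⟩ := h1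
        exact hw i hi
    refine ⟨fun i => c (wd W s i.1), ?_, hcE⟩
    choose z hz1 hz2 using hc2
    rw [hmemR]
    by_contra hcon2
    push Not at hcon2
    obtain ⟨n, r, hnr⟩ := hcon2
    refine hnr ?_
    have h1 := hcon (fun i => z (wd W s i.1)) (fun i => ?_) ?_ n r
    · rw [← h1]
      refine sum_congr rfl fun j _ => ?_
      rw [hz1]
      push_cast
      rfl
    · refine (hz2 _).trans ?_
      rw [← pow_mul]
      refine pow_le_pow_right₀ hC.le ?_
      refine hk2.trans ?_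
      have h4 : N ≤ 2 * (N - W) := by omega
      calc κ * N ≤ κ * (2 * (N - W)) := Nat.mul_le_mul_left _ h4
        _ = 2 * κ * (N - W) := by ring
    · have h1 := En_sum (s := s) fun i : ↥(IFr W ρ) => c (wd W s i.1)
      rw [hcE, hc3] at h1
      rw [h1]
      refine sum_congr rfl fun i _ => ?_
      rw [hz1]
      push_cast
      rfl
  have hle2 : R.map (En W ρ s) ≤ relS W ρ (s + W) (C ^ (s + W)) := by
    refine (Submodule.map_mono hspan).trans ?_
    rw [Submodule.map_span, Submodule.span_le]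
    rintro _ ⟨c, ⟨hcR, hcz⟩, rfl⟩
    have hH : H0 ≤ C ^ (s + W) := hN1 _ (by omega)
    refine Submodule.subset_span ⟨fun w hw => ?_, fun w => ?_, ?_⟩
    · by_contra h0
      rw [fam_iff4 (by omega)] at h0
      push Not at h0
      rw [Finsupp.mem_support_iff] at hw
      exact hw (En_out c h0)
    · by_cases hw : ∃ i : ↥(IFr W ρ), w = wd W s i.1
      · obtain ⟨i, rfl⟩ := hw
        obtain ⟨z, hz1, hz2⟩ := hcz i
        exact ⟨z, by rw [En_wd hsW, hz1], hz2.trans hH⟩
      · push Not at hw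
        exact ⟨0, by rw [En_out c hw, Int.cast_zero], by
          rw [Int.cast_zero, abs_zero]
          exact hH0.trans hH⟩
    · rw [En_sum]
      choose z hz1 hz2 using hcz
      have h1 := hexp ℝ mz mz_stuffle s (by omega) z
      have hexR : ∀ u, ex mz u = mz u := by
        intro u
        by_cases h : u = []
        · rw [h, ex_nil, mz]
        · rw [ex_ne _ h]
      simp only [hexR] at h1
      have h2 : ∑ i : ↥(IFr W ρ), (c i : ℝ) * mz (wd W s i.1) =
          ∑ i : ↥(IFr W ρ), (z i : ℝ) * mz (wd W s i.1) :=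
        sum_congr rfl fun i _ => by rw [hz1 i, Rat.cast_intCast]
      rw [h2, h1]
      rw [hmemR] at hcR
      rw [← sum_fiberwise_of_maps_to (s := univ)
        (t := univ.image fun j => ((jj j).1.1.sum, (jj j).1.2))
        (g := fun j => ((jj j).1.1.sum, (jj j).1.2)) (fun j _ => mem_image_of_mem _ (mem_univ j))]
      refine sum_eq_zero fun x _ => ?_
      have h3 : ∑ j with ((jj j).1.1.sum, (jj j).1.2) = x, ((z (ii j) * cc j : ℤ) : ℝ) *
          (mz (jj j).1.1 * mz (gw W s (jj j).1.1.sum (jj j).1.2)) =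
          (∑ j with (jj j).1.1.sum = x.1 ∧ (jj j).1.2 = x.2,
            ((c (ii j) * cc j : ℚ) : ℝ) * mz (jj j).1.1) * mz (gw W s x.1 x.2) := by
        rw [sum_mul]
        refine sum_congr ?_ fun j hj => ?_
        · ext j
          rw [mem_filter, mem_filter, Prod.ext_iff]
        · rw [mem_filter] at hj
          rw [hj.2.1, hj.2.2, hz1]
          push_cast
          ring
      rw [h3, hcR, zero_mul]
  rw [le_antisymm hle1 hle2]
  exact (LinearEquiv.finrank_eq (Submodule.equivMapOfInjective _ (En_inj hsW) R)).symm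

end Pool.Agent.X90.DG
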