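import Pool.Agent.X90.DG.Core4

/-!
# Counting words of given length
-/

set_option autoImplicit false

namespace Pool.Agent.X90.DG

open Finset
open Pool.Agent.X90.DB (Ad)
open Pool.Agent.X90.DE

/-- the number of words with positive entries, sum `m` and length `i` -/
def comps : ℕ → ℕ → ℕ
  | 0, 0 => 1
  | 0, _ + 1 => 0
  | _ + 1, 0 => 0
  | m + 1, i + 1 => m.choose i

lemma comps_succ (m i : ℕ) : comps (m + 1) (i + 1) = comps m i + comps m (i + 1) := by
  cases m with
  | zero =>
    cases i with
    | zero => rfl
    | succ i => rfl
  | succ m =>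
    cases i with
    | zero =>
      show (m + 1).choose 0 = 0 + m.choose 0
      simp
    | succ i => exact Nat.choose_succ_succ m i

/-- the words with positive entries, sum `m` and length `i` -/
def cpl (m i : ℕ) : Finset (List ℕ) := (cp m).filter fun r => r.length = i

lemma mem_cpl {m i : ℕ} {r : List ℕ} : r ∈ cpl m i ↔ ((∀ t ∈ r, 1 ≤ t) ∧ r.sum = m) ∧
    r.length = i := by
  rw [cpl, mem_filter, mem_cp]

/-- increase the first entry -/
def incr : List ℕ → List ℕ
  | [] => []
  | a :: l => (a + 1) :: l

lemma incr_inj : Function.Injective incr := by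
  intro x y h
  cases x with
  | nil =>
    cases y with
    | nil => rfl
    | cons b l => simp [incr] at h
  | cons a k =>
    cases y with
    | nil => simp [incr] at h
    | cons b l =>
      simp only [incr, List.cons.injEq, add_left_inj] at h
      rw [h.1, h.2]

lemma card_cpl (m : ℕ) : ∀ i, (cpl m i).card = comps m i := by
  induction m with
  | zero =>
    intro i
    cases i with
    | zero =>
      have h : cpl 0 0 = {[]} := by
        ext r
        rw [mem_cpl, mem_singleton]
        constructor
        · rintro ⟨-, h⟩
          exact List.length_eq_zero_iff.1 h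
        · rintro rfl
          simp
      rw [h]
      rfl
    | succ i =>
      have h : cpl 0 (i + 1) = ∅ := by
        ext r
        rw [mem_cpl]
        refine ⟨?_, fun h => absurd h (notMem_empty _)⟩
        rintro ⟨⟨h1, h2⟩, h3⟩
        cases r with
        | nil => simp at h3
        | cons a l =>
          have := h1 a List.mem_cons_self
          rw [List.sum_cons] at h2
          omega
      rw [h]
      rfl
  | succ m ih =>
    intro i
    cases i with
    | zero =>
      have h : cpl (m + 1) 0 = ∅ := by
        ext r
        rw [mem_cpl]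
        refine ⟨?_, fun h => absurd h (notMem_empty _)⟩
        rintro ⟨⟨h1, h2⟩, h3⟩
        rw [List.length_eq_zero_iff.1 h3] at h2
        simp at h2
      rw [h]
      rfl
    | succ i =>
      have h : cpl (m + 1) (i + 1) = (cpl m i).image (List.cons 1) ∪
          (cpl m (i + 1)).image incr := by
        ext r
        rw [mem_union, mem_image, mem_image, mem_cpl]
        constructor
        · rintro ⟨⟨h1, h2⟩, h3⟩
          cases r with
          | nil => simp at h3
          | cons a l =>
            have ha := h1 a List.mem_cons_self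
            have hl : ∀ t ∈ l, 1 ≤ t := fun t ht => h1 t (List.mem_cons_of_mem _ ht)
            rw [List.sum_cons] at h2
            rw [List.length_cons] at h3
            by_cases h4 : a = 1
            · left
              refine ⟨l, mem_cpl.2 ⟨⟨hl, by omega⟩, by omega⟩, by rw [h4]⟩
            · right
              refine ⟨(a - 1) :: l, mem_cpl.2 ⟨⟨fun t ht => ?_, ?_⟩, ?_⟩, ?_⟩
              · rcases List.mem_cons.1 ht with rfl | ht
                · omega
                · exact hl t ht
              · rw [List.sum_cons]
                omega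
              · rw [List.length_cons]
                omega
              · rw [incr]
                congr 1
                omega
        · rintro (⟨l, hl, rfl⟩ | ⟨l, hl, rfl⟩)
          · rw [mem_cpl] at hl
            refine ⟨⟨fun t ht => ?_, ?_⟩, ?_⟩
            · rcases List.mem_cons.1 ht with rfl | ht
              · exact le_rfl
              · exact hl.1.1 t ht
            · rw [List.sum_cons]
              omega
            · rw [List.length_cons]
              omega
          · rw [mem_cpl] at hl
            cases l with
            | nil => simp at hl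
            | cons a l =>
              obtain ⟨⟨h1, h2⟩, h3⟩ := hl
              rw [List.sum_cons] at h2
              rw [List.length_cons] at h3
              rw [incr]
              refine ⟨⟨fun t ht => ?_, ?_⟩, ?_⟩
              · rcases List.mem_cons.1 ht with rfl | ht
                · omega
                · exact h1 t (List.mem_cons_of_mem _ ht)
              · rw [List.sum_cons]
                omega
              · rw [List.length_cons]
                omega
      rw [h, card_union_of_disjoint, card_image_of_injective _ List.cons_injective,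
        card_image_of_injective _ incr_inj, ih, ih, comps_succ]
      rw [disjoint_left]
      intro r hr hr'
      rw [mem_image] at hr hr'
      obtain ⟨l, hl, rfl⟩ := hr
      obtain ⟨l', hl', h4⟩ := hr'
      rw [mem_cpl] at hl'
      cases l' with
      | nil => simp at hl'
      | cons a l' =>
        rw [incr, List.cons.injEq] at h4
        have := hl'.1.1 a List.mem_cons_self
        omega

/-- the number of admissible words of weight `n` and length `j` -/
def nx : ℕ → ℕ → ℕ
  | 0, 0 => 1
  | 0, _ + 1 => 0
  | 1, _ => 0
  | _ + 2, 0 => 0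
  | n + 2, j + 1 => n.choose j

lemma card_adx (n j : ℕ) : ((ad n).filter fun q => q.length = j).card = nx n j := by
  match n, j with
  | 0, 0 =>
    have h : (ad 0).filter (fun q => q.length = 0) = {[]} := by
      ext q
      rw [mem_filter, mem_ad, mem_singleton]
      constructor
      · rintro ⟨-, h⟩
        exact List.length_eq_zero_iff.1 h
      · rintro rfl
        simp
    rw [h]
    rfl
  | 0, j + 1 =>
    rw [card_eq_zero.2]
    · rfl
    · ext q
      rw [mem_filter, mem_ad]
      refine ⟨?_, fun h => absurd h (notMem_empty _)⟩
      rintro ⟨⟨h1, h2⟩, h3⟩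
      rcases h1 with rfl | h1
      · simp at h3
      · have := Pool.Agent.X90.DD.two_le_sum h1
        omega
  | 1, j =>
    rw [card_eq_zero.2]
    · rfl
    · ext q
      rw [mem_filter, mem_ad]
      refine ⟨?_, fun h => absurd h (notMem_empty _)⟩
      rintro ⟨⟨h1, h2⟩, h3⟩
      rcases h1 with rfl | h1
      · simp at h2
      · have := Pool.Agent.X90.DD.two_le_sum h1
        omega
  | n + 2, 0 =>
    rw [card_eq_zero.2]
    · rfl
    · ext q
      rw [mem_filter, mem_ad]
      refine ⟨?_, fun h => absurd h (notMem_empty _)⟩
      rintro ⟨⟨h1, h2⟩, h3⟩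
      rw [List.length_eq_zero_iff.1 h3] at h2
      simp at h2
  | n + 2, j + 1 =>
    have h : (ad (n + 2)).filter (fun q => q.length = j + 1) =
        (cpl (n + 1) (j + 1)).image incr := by
      ext q
      rw [mem_filter, mem_ad, mem_image]
      constructor
      · rintro ⟨⟨h1, h2⟩, h3⟩
        rcases h1 with rfl | h1
        · simp at h2
        · cases q with
          | nil => exact h1.elim
          | cons a l =>
            obtain ⟨h4, h5⟩ := h1
            rw [List.sum_cons] at h2
            rw [List.length_cons] at h3
            refine ⟨(a - 1) :: l, mem_cpl.2 ⟨⟨fun t ht => ?_, ?_⟩, ?_⟩, ?_⟩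
            · rcases List.mem_cons.1 ht with rfl | ht
              · omega
              · exact h5 t ht
            · rw [List.sum_cons]
              omega
            · rw [List.length_cons]
              omega
            · rw [incr]
              congr 1
              omega
      · rintro ⟨l, hl, rfl⟩
        rw [mem_cpl] at hl
        cases l with
        | nil => simp at hl
        | cons a l =>
          obtain ⟨⟨h1, h2⟩, h3⟩ := hl
          rw [List.sum_cons] at h2
          rw [List.length_cons] at h3
          rw [incr]
          have ha := h1 a List.mem_cons_self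
          refine ⟨⟨Or.inr ⟨by omega, fun t ht => h1 t (List.mem_cons_of_mem _ ht)⟩, ?_⟩, ?_⟩
          · rw [List.sum_cons]
            omega
          · rw [List.length_cons]
            omega
    rw [h, card_image_of_injective _ incr_inj, card_cpl]
    rfl

/-- the number of admissible words of weight `n` and length at most `l` -/
def nl (n l : ℕ) : ℕ := ∑ j ∈ range (l + 1), nx n j

lemma card_adl (n l : ℕ) : ((ad n).filter fun q => q.length ≤ l).card = nl n l := by
  rw [nl, card_eq_sum_card_fiberwise (f := fun q : List ℕ => q.length) (t := range (l + 1))]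
  · refine sum_congr rfl fun j hj => ?_
    rw [mem_range] at hj
    rw [← card_adx, filter_filter]
    congr 1
    ext q
    rw [mem_filter, mem_filter]
    constructor
    · rintro ⟨h1, -, h2⟩
      exact ⟨h1, h2⟩
    · rintro ⟨h1, h2⟩
      exact ⟨h1, by omega, h2⟩
  · intro q hq
    rw [mem_coe, mem_filter] at hq
    rw [mem_coe, mem_range]
    have := hq.2
    show q.length < l + 1
    omega

/-- the pairs of a number and a word of length at most `ρ`, of total weight at most `W` -/
def XFr (W ρ : ℕ) : Finset (ℕ × List ℕ) := (XF W).filter fun x => x.2.length ≤ ρ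

lemma mem_XFr {W ρ : ℕ} {x : ℕ × List ℕ} : x ∈ XFr W ρ ↔
    ((∀ t ∈ x.2, 1 ≤ t) ∧ x.1 + x.2.sum ≤ W) ∧ x.2.length ≤ ρ := by
  rw [XFr, mem_filter, mem_XF]

lemma sum_XFr (W ρ : ℕ) (f : ℕ → ℕ → ℕ) : ∑ x ∈ XFr W ρ, f x.1 (ρ - x.2.length) =
    ∑ n ∈ range (W + 1), ∑ m ∈ range (W - n + 1), ∑ i ∈ range (ρ + 1),
      comps m i * f n (ρ - i) := by
  rw [← sum_fiberwise_of_maps_to (s := XFr W ρ) (t := range (W + 1)) (g := fun x => x.1)
    fun x hx => by
      rw [mem_XFr] at hx
      rw [mem_range]
      omega]
  refine sum_congr rfl fun n hn => ?_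
  rw [mem_range] at hn
  rw [← sum_fiberwise_of_maps_to (s := (XFr W ρ).filter fun x => x.1 = n)
    (t := range (W - n + 1)) (g := fun x => x.2.sum) fun x hx => by
      rw [mem_filter, mem_XFr] at hx
      rw [mem_range]
      omega]
  refine sum_congr rfl fun m hm => ?_
  rw [mem_range] at hm
  rw [← sum_fiberwise_of_maps_to (s := ((XFr W ρ).filter fun x => x.1 = n).filter
    fun x => x.2.sum = m) (t := range (ρ + 1)) (g := fun x => x.2.length) fun x hx => by
      rw [mem_filter, mem_filter, mem_XFr] at hx
      rw [mem_range]
      omega]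
  refine sum_congr rfl fun i hi => ?_
  rw [mem_range] at hi
  have h : (((XFr W ρ).filter fun x => x.1 = n).filter fun x => x.2.sum = m).filter
      (fun x => x.2.length = i) = (cpl m i).image fun r => (n, r) := by
    ext x
    rw [mem_filter, mem_filter, mem_filter, mem_XFr, mem_image]
    constructor
    · rintro ⟨⟨⟨⟨⟨h1, h2⟩, h3⟩, h4⟩, h5⟩, h6⟩
      exact ⟨x.2, mem_cpl.2 ⟨⟨h1, h5⟩, h6⟩, Prod.ext h4.symm rfl⟩
    · rintro ⟨r, hr, rfl⟩
      rw [mem_cpl] at hr
      exact ⟨⟨⟨⟨⟨hr.1.1, by simp only; omega⟩, by simp only; omega⟩, rfl⟩, hr.1.2⟩, hr.2⟩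
  rw [h, sum_image fun r _ r' _ h => (Prod.ext_iff.1 h).2]
  rw [sum_congr rfl fun r hr => by
    show f n (ρ - r.length) = f n (ρ - i)
    rw [(mem_cpl.1 hr).2], sum_const, card_cpl, smul_eq_mul]

lemma card_IFr (W ρ : ℕ) : (IFr W ρ).card = ∑ x ∈ XFr W ρ, nl x.1 (ρ - x.2.length) := by
  rw [card_eq_sum_card_fiberwise (f := fun i : List ℕ × List ℕ => (i.1.sum, i.2))
    (t := XFr W ρ)]
  · refine sum_congr rfl fun x hx => ?_
    rw [mem_XFr] at hx
    rw [← card_adl]
    refine card_bij (fun i _ => i.1) ?_ ?_ ?_
    · intro i hi
      rw [mem_filter, mem_IFr, Prod.ext_iff] at hi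
      obtain ⟨⟨⟨h1, h2, h3⟩, h4⟩, h5, h6⟩ := hi
      simp only at h5 h6
      rw [mem_filter, mem_ad, ← h6]
      exact ⟨⟨h1, h5⟩, by omega⟩
    · intro i hi i' hi' h
      rw [mem_filter, Prod.ext_iff] at hi hi'
      exact Prod.ext h (hi.2.2.trans hi'.2.2.symm)
    · intro q hq
      rw [mem_filter, mem_ad] at hq
      refine ⟨(q, x.2), ?_, rfl⟩
      rw [mem_filter, mem_IFr]
      refine ⟨⟨⟨hq.1.1, hx.1.1, by simp only; omega⟩, by simp only; omega⟩, ?_⟩
      exact Prod.ext hq.1.2 rfl
  · intro i hi
    rw [mem_coe, mem_IFr] at hi
    rw [mem_coe, mem_XFr]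
    exact ⟨⟨hi.1.2.1, hi.1.2.2⟩, by simp only; omega⟩

end Pool.Agent.X90.DG
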