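import Pool.Agent.X90.DG.Lin4
import Pool.Agent.X90.DE.Main

/-!
# Words with one large letter and bounded depth
-/

set_option autoImplicit false

namespace Pool.Agent.X90.DG

open Finset
open Pool.Agent.Y760.ZG (mz)
open Pool.Agent.Y760.ZF (sti)
open Pool.Agent.X90.DB (Ad ix ex ex_nil ex_ne)
open Pool.Agent.X90.DC
open Pool.Agent.X90.DD
open Pool.Agent.X90.DE

/-- the pairs of total weight at most `W` and total length at most `ρ` -/
noncomputable def IFr (W ρ : ℕ) : Finset (List ℕ × List ℕ) :=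
  (IF W).filter fun i => i.1.length + i.2.length ≤ ρ

lemma mem_IFr {W ρ : ℕ} {i : List ℕ × List ℕ} : i ∈ IFr W ρ ↔
    ((i.1 = [] ∨ Ad i.1) ∧ (∀ t ∈ i.2, 1 ≤ t) ∧ i.1.sum + i.2.sum ≤ W) ∧
      i.1.length + i.2.length ≤ ρ := by
  rw [IFr, mem_filter, mem_IF]

/-- **the relations between the values with one large argument** -/
theorem core4 (W ρ κ : ℕ) : ∃ (m : ℕ) (ii jj : Fin m → ↥(IFr W ρ)) (cc : Fin m → ℤ),
    (∀ (A : Type) [CommRing A] (Z : List ℕ → A),
      (∀ u v, Ad u → Ad v → Z u * Z v = ((sti u v).map Z).sum) →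
      ∀ s : ℕ, 2 ≤ s → ∀ c : ↥(IFr W ρ) → ℤ, ∑ i, (c i : A) * ex Z (wd W s i.1) =
        ∑ j, ((c (ii j) * cc j : ℤ) : A) *
          (ex Z (jj j).1.1 * ex Z (gw W s (jj j).1.1.sum (jj j).1.2))) ∧
    ∃ K : ℕ, ∀ C : ℝ, ∃ N0 : ℕ, ∀ N : ℕ, N0 ≤ N → ∀ B : Finset ℕ,
      (∀ s ∈ B, (N ≤ s ∧ s ≤ κ * N) ∧ ∃ c : ↥(IFr W ρ) → ℤ, (∀ i, |(c i : ℝ)| ≤ C ^ N) ∧
        ∑ i, (c i : ℝ) * mz (wd W s i.1) = 0 ∧
        ∃ (n : ℕ) (r : List ℕ), ∑ j with (jj j).1.1.sum = n ∧ (jj j).1.2 = r,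
          ((c (ii j) * cc j : ℤ) : ℝ) * mz (jj j).1.1 ≠ 0) → B.card ≤ K := by
  classical
  set e := (IFr W ρ).equivFin with he
  have hI : ∀ i : ↥(IFr W ρ), (i.1.1 = [] ∨ Ad i.1.1) ∧ (∀ t ∈ i.1.2, 1 ≤ t) ∧
      i.1.1.sum + i.1.2.sum ≤ W := fun i => (mem_IFr.1 i.2).1
  have hIl : ∀ i : ↥(IFr W ρ), i.1.1.length + i.1.2.length ≤ ρ := fun i => (mem_IFr.1 i.2).2
  obtain ⟨m, idx, cc, p, v, hpv, hexp, K, hK⟩ := lin4 1 (IFr W ρ).card
    (fun a => pt W (e.symm a).1) (fun a => ge_pt (hI _).1 (hI _).2.1) κ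
  have hsumw : ∀ (s : Fin 1 → ℕ) (a : Fin (IFr W ρ).card),
      (ix s (pt W (e.symm a).1)).sum = s 0 + W := by
    intro s a
    rw [ix_pt, wd, gw, List.sum_append, List.sum_cons]
    have := (hI (e.symm a)).2.2
    omega
  have h1 : ∀ j, ∃ r : List ℕ, v j = (W - (p j).sum - r.sum, fun _ => 1) :: fp r ∧
      (∀ t ∈ r, 1 ≤ t) ∧ (p j).sum + r.sum ≤ W := fun j =>
    struct W (p j).sum (v j) (hpv j).2.2.1 fun s => by
      rw [(hpv j).2.2.2.1 s, hsumw]
  choose r hr1 hr2 hr3 using h1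
  have hixv : ∀ (s : Fin 1 → ℕ) j, ix s (v j) = gw W (s 0) (p j).sum (r j) := by
    intro s j
    rw [hr1 j, ix_letter]
    rfl
  have hlen : ∀ j, (p j).length + (r j).length ≤ ρ := by
    intro j
    have h2 := (hpv j).2.2.2.2
    rw [hr1 j, pt, List.length_cons, List.length_append, List.length_cons, fp, fp, fp,
      List.length_map, List.length_map, List.length_map] at h2
    have := hIl (e.symm (idx j))
    omega
  refine ⟨m, fun j => e.symm (idx j),
    fun j => ⟨(p j, r j), mem_IFr.2 ⟨⟨(hpv j).1, hr2 j, hr3 j⟩, hlen j⟩⟩, cc, ?_, K, ?_⟩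
  · intro A _ Z hZ s hs c
    have h2 := hexp A Z hZ (fun _ => s) (fun _ => hs) fun a => c (e.symm a)
    simp only [ix_pt, hixv] at h2
    rw [← e.symm.sum_comp]
    exact h2
  · intro C
    obtain ⟨N0, hN0⟩ := hK C
    refine ⟨N0 + 2, fun N hN B hB => ?_⟩
    have h2 := hN0 N (by omega) (B.map ⟨fun (s : ℕ) (_ : Fin 1) => s, fun s s' h => congrFun h 0⟩) (by
      intro s' hs'
      rw [mem_map] at hs'
      obtain ⟨s, hs, rfl⟩ := hs'
      obtain ⟨h3, c, h4, h5, n, r0, h6⟩ := hB s hs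
      refine ⟨fun _ => h3, fun a => c (e.symm a), fun a => h4 _, ?_, gw W s n r0, ?_⟩
      · rw [← h5, ← e.symm.sum_comp]
        exact sum_congr rfl fun a _ => by rw [ix_pt]; rfl
      · have h7 : (univ.filter fun j => ix (fun _ : Fin 1 => s) (v j) = gw W s n r0) =
            univ.filter fun j => (p j).sum = n ∧ r j = r0 := by
          obtain ⟨j0, hj0⟩ : ∃ j, (p j).sum = n ∧ r j = r0 := by
            by_contra hcon
            push Not at hcon
            apply h6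
            rw [filter_false_of_mem, sum_empty]
            rintro j - ⟨g1, g2⟩
            exact hcon j g1 g2
          ext j
          rw [mem_filter, mem_filter, hixv, gw, gw, List.cons.injEq]
          have g1 := hr3 j
          have g2 := hr3 j0
          rw [hj0.2] at g2
          constructor
          · rintro ⟨g4, g3, g5⟩
            rw [g5] at g3 g1
            exact ⟨mem_univ _, by omega, g5⟩
          · rintro ⟨g4, g3, g5⟩
            rw [g3, g5]
            exact ⟨mem_univ _, rfl, rfl⟩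
        show ∑ j with ix (fun _ : Fin 1 => s) (v j) = gw W s n r0, _ ≠ 0
        rw [h7]
        exact h6)
    rwa [card_map, Nat.sub_self, pow_zero, mul_one] at h2

end Pool.Agent.X90.DG
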